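import Pool.Agent.H45Sch.Deg2

set_option autoImplicit false

/-!
Integer factorizations of finite maximal codes with a factor whose words contain at most two letters
different from `a`: positivity.
-/

namespace Pool.Agent.Results.MP_2acf4c_lc.DegreeTwo

/-- Let `C` be a finite set of nonempty words over a finite alphabet with at least two letters, one
of them `a`, and let `C - 1 = P (A - 1) S` with `P, S` noncommutative integer polynomials.
Let `a^n` lie in `C`. Suppose that `n` is one or prime, or that `P` contains no power `a^i` with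
`i ≥ 1`, or that `S` contains no such power. Suppose moreover one of the following:
each word of `C` has at most five letters different from `a`; or `n = 1` and each word of `C` has at
most six; or each word of `P` (or each word of `S`) has at most one such letter; or `S` contains no
`a^i` with `i ≥ 1` and each word of `P` has at most two such letters; or `P` contains no `a^i` with
`i ≥ 1` and each word of `S` has at most two such letters.
Then, up to a common sign, `P` and `S` are the characteristic polynomials of finite sets of words. -/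
theorem result {α : Type} [Fintype α] [DecidableEq α] (a : α) (hα : ∃ b : α, b ≠ a)
    (C : Finset (FreeMonoid α)) (P S : MonoidAlgebra ℤ (FreeMonoid α)) (n : ℕ)
    (h1 : (1 : FreeMonoid α) ∉ C)
    (ha : FreeMonoid.of a ^ n ∈ C)
    (hn : n = 1 ∨ n.Prime ∨ (∀ i : ℕ, 0 < i → P.coeff (FreeMonoid.of a ^ i) = 0) ∨
      (∀ i : ℕ, 0 < i → S.coeff (FreeMonoid.of a ^ i) = 0))
    (hl : (∀ x ∈ C, (x.toList.filter (fun y => y ≠ a)).length ≤ 5) ∨
      (n = 1 ∧ ∀ x ∈ C, (x.toList.filter (fun y => y ≠ a)).length ≤ 6) ∨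
      (∀ x, P.coeff x ≠ 0 → (x.toList.filter (fun y => y ≠ a)).length ≤ 1) ∨
      (∀ x, S.coeff x ≠ 0 → (x.toList.filter (fun y => y ≠ a)).length ≤ 1) ∨
      ((∀ i : ℕ, 0 < i → S.coeff (FreeMonoid.of a ^ i) = 0) ∧
        ∀ x, P.coeff x ≠ 0 → (x.toList.filter (fun y => y ≠ a)).length ≤ 2) ∨
      ((∀ i : ℕ, 0 < i → P.coeff (FreeMonoid.of a ^ i) = 0) ∧
        ∀ x, S.coeff x ≠ 0 → (x.toList.filter (fun y => y ≠ a)).length ≤ 2))
    (E : (∑ x ∈ C, MonoidAlgebra.of ℤ (FreeMonoid α) x) - 1 =
      P * ((∑ x : α, MonoidAlgebra.of ℤ (FreeMonoid α) (FreeMonoid.of x)) - 1) * S) :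
    ∃ P' S' : Finset (FreeMonoid α),
      (P = ∑ x ∈ P', MonoidAlgebra.of ℤ (FreeMonoid α) x ∧
        S = ∑ x ∈ S', MonoidAlgebra.of ℤ (FreeMonoid α) x) ∨
      (P = -∑ x ∈ P', MonoidAlgebra.of ℤ (FreeMonoid α) x ∧
        S = -∑ x ∈ S', MonoidAlgebra.of ℤ (FreeMonoid α) x) :=
  H45Sch.deg_main a hα C P S n h1 ha hn hl E

end Pool.Agent.Results.MP_2acf4c_lc.DegreeTwo
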