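import Pool.Agent.H42Sch.Final

set_option autoImplicit false

/-!
Finite maximal codes with at most four letters different from `a` in each word, whose power of `a`
has exponent a prime power or a product of two primes: every integer factorization is, up to sign,
a factorization by characteristic polynomials of finite sets.
-/

namespace Pool.Agent.Results.MP_2acf4c_lc.FourOccurrences

/-- Let `C` be a finite set of nonempty words over a finite alphabet with at least two letters, one
of them `a`, such that each word of `C` has at most four letters different from `a`, and let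
`a^n` lie in `C` where `n` is a prime power or a product of two primes. If `C - 1 = P (A - 1) S` with
`P, S` noncommutative integer polynomials then, up to a common sign, `P` and `S` are the
characteristic polynomials of finite sets of words. -/
theorem result {α : Type} [Fintype α] [DecidableEq α] (a : α) (hα : ∃ b : α, b ≠ a)
    (C : Finset (FreeMonoid α)) (P S : MonoidAlgebra ℤ (FreeMonoid α)) (n : ℕ)
    (h1 : (1 : FreeMonoid α) ∉ C)
    (h4 : ∀ x ∈ C, (x.toList.filter (fun y => y ≠ a)).length ≤ 4)
    (ha : FreeMonoid.of a ^ n ∈ C)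
    (hn : (∃ p k : ℕ, p.Prime ∧ n = p ^ k) ∨ (∃ p q : ℕ, p.Prime ∧ q.Prime ∧ n = p * q))
    (E : (∑ x ∈ C, MonoidAlgebra.of ℤ (FreeMonoid α) x) - 1 =
      P * ((∑ x : α, MonoidAlgebra.of ℤ (FreeMonoid α) (FreeMonoid.of x)) - 1) * S) :
    ∃ P' S' : Finset (FreeMonoid α),
      (P = ∑ x ∈ P', MonoidAlgebra.of ℤ (FreeMonoid α) x ∧
        S = ∑ x ∈ S', MonoidAlgebra.of ℤ (FreeMonoid α) x) ∨
      (P = -∑ x ∈ P', MonoidAlgebra.of ℤ (FreeMonoid α) x ∧
        S = -∑ x ∈ S', MonoidAlgebra.of ℤ (FreeMonoid α) x) :=
  H42Sch.four_main a hα C P S n h1 h4 ha hn E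

end Pool.Agent.Results.MP_2acf4c_lc.FourOccurrences
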