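import Pool.Agent.H42Sch.Final

set_option autoImplicit false

/-!
For every exponent `n`: if the words of `C` have at most four letters different from `a`, or if one of
the two factors has at most one such letter in each of its words, then one of the two factors is, up
to sign, the characteristic polynomial of a finite set.
-/

namespace Pool.Agent.Results.MP_2acf4c_lc.OneFactorPositive

/-- Let `C` be a finite set of nonempty words over a finite alphabet with at least two letters, one
of them `a`, and `C - 1 = P (A - 1) S` with `P, S` noncommutative integer polynomials. Suppose that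
each word of `C` has at most four letters different from `a`, or that each word occurring in `P`
has at most one such letter, or that each word occurring in `S` has at most one such letter. Then
`P` or `S` is, up to sign, the characteristic polynomial of a finite set of words. -/
theorem result {α : Type} [Fintype α] [DecidableEq α] (a : α) (hα : ∃ b : α, b ≠ a)
    (C : Finset (FreeMonoid α)) (P S : MonoidAlgebra ℤ (FreeMonoid α))
    (h1 : (1 : FreeMonoid α) ∉ C)
    (hlev : (∀ x ∈ C, (x.toList.filter (fun y => y ≠ a)).length ≤ 4) ∨
      (∀ x, P.coeff x ≠ 0 → (x.toList.filter (fun y => y ≠ a)).length ≤ 1) ∨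
      (∀ x, S.coeff x ≠ 0 → (x.toList.filter (fun y => y ≠ a)).length ≤ 1))
    (E : (∑ x ∈ C, MonoidAlgebra.of ℤ (FreeMonoid α) x) - 1 =
      P * ((∑ x : α, MonoidAlgebra.of ℤ (FreeMonoid α) (FreeMonoid.of x)) - 1) * S) :
    ∃ (T : Finset (FreeMonoid α)) (e : ℤ), (e = 1 ∨ e = -1) ∧
      (P = e • ∑ x ∈ T, MonoidAlgebra.of ℤ (FreeMonoid α) x ∨
       S = e • ∑ x ∈ T, MonoidAlgebra.of ℤ (FreeMonoid α) x) :=
  H42Sch.half_main a hα C P S h1 hlev E

end Pool.Agent.Results.MP_2acf4c_lc.OneFactorPositive
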