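import Pool.Agent.H42Sch.Final

set_option autoImplicit false

/-!
For every exponent `n`: with at most four letters different from `a` in each word of `C`, positivity
of the two factors on the powers of `a` implies positivity everywhere.
-/

namespace Pool.Agent.Results.MP_2acf4c_lc.PowersDecide

/-- Let `C` be a finite set of nonempty words over a finite alphabet with at least two letters, one
of them `a`, such that each word of `C` has at most four letters different from `a`, and let
`C - 1 = P (A - 1) S` with `P, S` noncommutative integer polynomials. If the coefficients of all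
powers of `a` in `P` and in `S` are nonnegative, then `P` and `S` are the characteristic polynomials
of finite sets of words. -/
theorem result {α : Type} [Fintype α] [DecidableEq α] (a : α) (hα : ∃ b : α, b ≠ a)
    (C : Finset (FreeMonoid α)) (P S : MonoidAlgebra ℤ (FreeMonoid α))
    (h1 : (1 : FreeMonoid α) ∉ C)
    (h4 : ∀ x ∈ C, (x.toList.filter (fun y => y ≠ a)).length ≤ 4)
    (hPa : ∀ i : ℕ, 0 ≤ P.coeff (FreeMonoid.of a ^ i))
    (hSa : ∀ i : ℕ, 0 ≤ S.coeff (FreeMonoid.of a ^ i))
    (E : (∑ x ∈ C, MonoidAlgebra.of ℤ (FreeMonoid α) x) - 1 =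
      P * ((∑ x : α, MonoidAlgebra.of ℤ (FreeMonoid α) (FreeMonoid.of x)) - 1) * S) :
    ∃ P' S' : Finset (FreeMonoid α),
      P = ∑ x ∈ P', MonoidAlgebra.of ℤ (FreeMonoid α) x ∧
        S = ∑ x ∈ S', MonoidAlgebra.of ℤ (FreeMonoid α) x :=
  H42Sch.red_main a hα C P S h1 h4 hPa hSa E

end Pool.Agent.Results.MP_2acf4c_lc.PowersDecide
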